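import Mathlib

namespace Pool.Agent.Results.MP_fa7ade_co.Small

/-- `c` runs once through all vertices along arcs of `D`, and the last vertex is joined to the
first one (indices are taken modulo `n`). -/
def IsHamCycle {V : Type*} (D : Digraph V) (n : ℕ) (c : ZMod n → V) : Prop :=
  Function.Bijective c ∧ ∀ i, D.Adj (c i) (c (i + 1))

/-- Two cycles without a common arc. -/
def ArcDisjoint {V : Type*} (n : ℕ) (c c' : ZMod n → V) : Prop :=
  ∀ i j, ¬ (c i = c' j ∧ c (i + 1) = c' (j + 1))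

/-- The digraph `D` on `n` vertices satisfies the hypotheses of the question. -/
def Hyp (n : ℕ) (D : Digraph (Fin n)) : Prop :=
  3 ≤ n ∧ (∀ v, ¬ D.Adj v v) ∧
  (∀ v, (n : ℝ) / 2 ≤ ({w | D.Adj v w} : Set (Fin n)).ncard) ∧
  (∀ v, (n : ℝ) / 2 ≤ ({w | D.Adj w v} : Set (Fin n)).ncard)

/-- The digraph `D` on `n` vertices has two arc-disjoint directed Hamiltonian cycles. -/
def Concl (n : ℕ) (D : Digraph (Fin n)) : Prop :=
  ∃ c c' : ZMod n → Fin n, IsHamCycle D n c ∧ IsHamCycle D n c' ∧ ArcDisjoint n c c'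

def adj4 : Fin 4 → Fin 4 → Bool :=
  ![![false, true, true, false], ![true, false, false, true],
    ![false, true, false, true], ![true, false, true, false]]

def suc4 : Fin 4 → Fin 4 := ![2, 3, 1, 0]

def adj6 : Fin 6 → Fin 6 → Bool :=
  ![![false, true, true, true, false, false], ![true, false, true, false, true, false],
    ![true, true, false, false, false, true], ![false, true, false, false, true, true],
    ![false, false, true, true, false, true], ![true, false, false, true, true, false]]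

def suc6 : Fin 4 → Fin 6 → Fin 6 :=
  ![![2, 4, 1, 5, 3, 0], ![2, 0, 5, 1, 3, 4], ![3, 4, 5, 1, 2, 0], ![3, 0, 1, 5, 2, 4]]

lemma ham4 (c : Fin 4 → Fin 4) (hc : Function.Injective c) (h : ∀ i, adj4 (c i) (c (i + 1)) = true) :
    ∀ i, c (i + 1) = suc4 (c i) := by
  revert c
  decide +kernel

lemma ham6 : ∀ a0 a1 : Fin 6, adj6 a0 a1 = true →
    ∀ a2, (adj6 a1 a2 && a0 != a2) = true →
    ∀ a3, (adj6 a2 a3 && a3 != a0 && a3 != a1) = true →
    ∀ a4, (adj6 a3 a4 && a4 != a0 && a4 != a1 && a4 != a2) = true →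
    ∀ a5, (adj6 a4 a5 && a5 != a0 && a5 != a1 && a5 != a2 && a5 != a3 && adj6 a5 a0) = true →
    ∃ k, (suc6 k a0 == a1 && suc6 k a1 == a2 && suc6 k a2 == a3 && suc6 k a3 == a4 &&
      suc6 k a4 == a5 && suc6 k a5 == a0) = true := by
  decide +kernel

lemma common6 : ∀ k l, ∃ v, suc6 k v = suc6 l v := by
  decide +kernel

lemma ham6' (c : Fin 6 → Fin 6) (hc : Function.Injective c)
    (h : ∀ i, adj6 (c i) (c (i + 1)) = true) :
    ∃ k, ∀ i, c (i + 1) = suc6 k (c i) := by
  have hn : ∀ i j : Fin 6, i ≠ j → c i ≠ c j := fun i j hij he => hij (hc he)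
  have hh := ham6 (c 0) (c 1) (h 0) (c 2) (by
      have := h 1
      have e1 := hn 0 2 (by decide)
      simp_all) (c 3) (by
      have := h 2
      have e1 := hn 3 0 (by decide)
      have e2 := hn 3 1 (by decide)
      simp_all) (c 4) (by
      have := h 3
      have e1 := hn 4 0 (by decide)
      have e2 := hn 4 1 (by decide)
      have e3 := hn 4 2 (by decide)
      simp_all) (c 5) (by
      have := h 4
      have h5 : adj6 (c 5) (c 0) = true := h 5
      have e1 := hn 5 0 (by decide)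
      have e2 := hn 5 1 (by decide)
      have e3 := hn 5 2 (by decide)
      have e4 := hn 5 3 (by decide)
      simp_all)
  simp only [Bool.and_eq_true, beq_iff_eq] at hh
  obtain ⟨k, ⟨⟨⟨⟨⟨h0, h1⟩, h2⟩, h3⟩, h4⟩, h5⟩⟩ := hh
  refine ⟨k, fun i => ?_⟩
  fin_cases i
  · exact h0.symm
  · exact h1.symm
  · exact h2.symm
  · exact h3.symm
  · exact h4.symm
  · exact h5.symm

/-- There are counterexamples with 4 and with 6 vertices. -/
theorem result :
    (∃ D : Digraph (Fin 4), Hyp 4 D ∧ ¬ Concl 4 D) ∧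
    (∃ D : Digraph (Fin 6), Hyp 6 D ∧ ¬ Concl 6 D) := by
  refine ⟨⟨⟨fun a b => adj4 a b = true⟩, ⟨by norm_num, by decide, ?_, ?_⟩, ?_⟩,
    ⟨⟨fun a b => adj6 a b = true⟩, ⟨by norm_num, by decide, ?_, ?_⟩, ?_⟩⟩
  · intro v
    have : ({w | adj4 v w = true} : Set (Fin 4)).ncard = 2 := by
      rw [Set.ncard_eq_toFinset_card']
      revert v; decide
    simp only [this]; norm_num
  · intro v
    have : ({w | adj4 w v = true} : Set (Fin 4)).ncard = 2 := by
      rw [Set.ncard_eq_toFinset_card']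
      revert v; decide
    simp only [this]; norm_num
  · rintro ⟨c, c', ⟨⟨hc1, hc2⟩, hc3⟩, ⟨⟨hc1', hc2'⟩, hc3'⟩, hd⟩
    have e := ham4 c hc1 hc3
    have e' := ham4 c' hc1' hc3'
    obtain ⟨i, hi⟩ := hc2 (0 : Fin 4)
    obtain ⟨j, hj⟩ := hc2' (0 : Fin 4)
    exact hd i j ⟨by rw [hi, hj], (e i).trans (by rw [hi, ← hj]; exact (e' j).symm)⟩
  · intro v
    have : ({w | adj6 v w = true} : Set (Fin 6)).ncard = 3 := by
      rw [Set.ncard_eq_toFinset_card']
      revert v; decide
    simp only [this]; norm_num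
  · intro v
    have : ({w | adj6 w v = true} : Set (Fin 6)).ncard = 3 := by
      rw [Set.ncard_eq_toFinset_card']
      revert v; decide
    simp only [this]; norm_num
  · rintro ⟨c, c', ⟨⟨hc1, hc2⟩, hc3⟩, ⟨⟨hc1', hc2'⟩, hc3'⟩, hd⟩
    obtain ⟨k, e⟩ := ham6' c hc1 hc3
    obtain ⟨l, e'⟩ := ham6' c' hc1' hc3'
    obtain ⟨v, hv⟩ := common6 k l
    obtain ⟨i, hi⟩ := hc2 v
    obtain ⟨j, hj⟩ := hc2' v
    exact hd i j ⟨by rw [hi, hj], (e i).trans (by rw [hi, hv, ← hj]; exact (e' j).symm)⟩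

end Pool.Agent.Results.MP_fa7ade_co.Small
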